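import Pool.Agent.H14.Jordan.Bridge

set_option autoImplicit false
open Set Topology Filter MeasureTheory
open scoped Real ENNReal

/-! # The variation of a parametrisation of a Jordan curve of finite length -/

namespace Pool.Agent.H11.Lit

open Pool.Agent.H14.Jordan

/-- The distance of the ends of an arc is at most its length. -/
lemma edist_le_hausdorff {ρ : ℝ → ℂ} (hρ : Continuous ρ) {s t : ℝ} (hst : s ≤ t) :
    edist (ρ t) (ρ s) ≤ μH[1] (ρ '' Ico s t) := by
  have hf : LipschitzWith 1 (fun z : ℂ => dist z (ρ s)) := LipschitzWith.dist_left _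
  have h1 : Ico 0 (dist (ρ t) (ρ s)) ⊆ (fun z : ℂ => dist z (ρ s)) '' (ρ '' Ico s t) := by
    intro c hc
    have h2 : ContinuousOn (fun τ : ℝ => dist (ρ τ) (ρ s)) (Icc s t) := by fun_prop
    have h3 : c ∈ (fun τ : ℝ => dist (ρ τ) (ρ s)) '' Icc s t :=
      intermediate_value_Icc hst h2 ⟨by simpa using hc.1, hc.2.le⟩
    obtain ⟨τ, hτ, h⟩ := h3
    refine ⟨ρ τ, ⟨τ, ⟨hτ.1, lt_of_le_of_ne hτ.2 ?_⟩, rfl⟩, h⟩
    rintro rfl
    exact hc.2.ne h.symm
  calc edist (ρ t) (ρ s) = volume (Ico 0 (dist (ρ t) (ρ s))) := by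
        rw [Real.volume_Ico, sub_zero, edist_dist]
    _ = μH[1] (Ico 0 (dist (ρ t) (ρ s))) := by rw [hausdorffMeasure_real]
    _ ≤ μH[1] ((fun z : ℂ => dist z (ρ s)) '' (ρ '' Ico s t)) := measure_mono h1
    _ ≤ μH[1] (ρ '' Ico s t) := by
        simpa using hf.hausdorffMeasure_image_le (d := 1) zero_le_one (ρ '' Ico s t)

/-- The variation over a period is at most the length of the curve. -/
theorem eVariationOn_le_hausdorff {ρ : ℝ → ℂ} (h : IsLoop ρ) {a b : ℝ} (hb : b ≤ a + 2 * π) :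
    eVariationOn ρ (Icc a b) ≤ μH[1] (range ρ) := by
  have hinj : InjOn ρ (Ico a (a + 2 * π)) := by
    intro x hx y hy hxy
    have hz : max x y < a + 2 * π := max_lt hx.2 hy.2
    exact h.injOn hz ⟨hx.1, le_max_left _ _⟩ ⟨hy.1, le_max_right _ _⟩ hxy
  refine iSup_le ?_
  rintro ⟨n, u, hu, hus⟩
  have hsub : ∀ i, Ico (u i) (u (i + 1)) ⊆ Ico a (a + 2 * π) := fun i x hx =>
    ⟨(hus i).1.trans hx.1, hx.2.trans_le ((hus (i + 1)).2.trans hb)⟩
  calc ∑ i ∈ Finset.range n, edist (ρ (u (i + 1))) (ρ (u i))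
      ≤ ∑ i ∈ Finset.range n, μH[1] (ρ '' Ico (u i) (u (i + 1))) :=
        Finset.sum_le_sum fun i _ => edist_le_hausdorff h.cont (hu (Nat.le_succ i))
    _ = μH[1] (⋃ i ∈ Finset.range n, ρ '' Ico (u i) (u (i + 1))) := by
        rw [measure_biUnion_finset]
        · intro i _ j _ hij
          have h1 := hu.pairwise_disjoint_on_Ico_succ hij
          simp only [Function.onFun] at h1 ⊢
          exact h1.image hinj (hsub i) (hsub j)
        · intro i _
          exact measurableSet_Ico.image_of_continuousOn_injOn h.cont.continuousOn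
            (hinj.mono (hsub i))
    _ ≤ μH[1] (range ρ) := measure_mono (by
        intro x hx
        simp only [mem_iUnion] at hx
        obtain ⟨i, -, y, -, rfl⟩ := hx
        exact ⟨y, rfl⟩)

/-- **Finite variation.** -/
theorem eVariationOn_ne_top {ρ : ℝ → ℂ} (h : IsLoop ρ) (hH : μH[1] (range ρ) < ⊤) (a b : ℝ) :
    eVariationOn ρ (Icc a b) ≠ ⊤ := by
  have key : ∀ n : ℕ, eVariationOn ρ (Icc a (a + n * (2 * π))) ≠ ⊤ := by
    intro n
    induction n with
    | zero =>
      rw [eVariationOn.subsingleton]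
      · exact ENNReal.zero_ne_top
      · simp
    | succ n ih =>
      have h0 : (0 : ℝ) ≤ n * (2 * π) := by positivity
      have h1 : eVariationOn ρ (Icc a (a + n * (2 * π))) +
          eVariationOn ρ (Icc (a + n * (2 * π)) (a + (n + 1 : ℕ) * (2 * π))) =
          eVariationOn ρ (Icc a (a + (n + 1 : ℕ) * (2 * π))) := by
        have h2 := eVariationOn.Icc_add_Icc ρ (s := univ) (a := a) (b := a + n * (2 * π))
          (c := a + (n + 1 : ℕ) * (2 * π)) (by linarith)
          (by push_cast; nlinarith [Real.pi_pos]) (mem_univ _)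
        simpa using h2
      rw [← h1]
      refine ENNReal.add_ne_top.2 ⟨ih, ne_top_of_le_ne_top hH.ne (eVariationOn_le_hausdorff h ?_)⟩
      push_cast; linarith
  obtain ⟨n, hn⟩ := exists_nat_ge ((b - a) / (2 * π))
  refine ne_top_of_le_ne_top (key n) (eVariationOn.mono _ (Icc_subset_Icc_right ?_))
  rw [div_le_iff₀ Real.two_pi_pos] at hn
  linarith

/-- Points of an arc at pairwise distance at least `δ`. -/
theorem card_mul_le_eVariationOn {ρ : ℝ → ℂ} {S : Set ℝ} (G : Finset ℝ) (hG : ∀ x ∈ G, x ∈ S)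
    {δ : ℝ} (hδ : 0 ≤ δ) (hsep : ∀ x ∈ G, ∀ y ∈ G, x ≠ y → δ ≤ dist (ρ x) (ρ y)) :
    ENNReal.ofReal ((G.card - 1) * δ) ≤ eVariationOn ρ S := by
  rcases Nat.eq_zero_or_pos G.card with h0 | h0
  · rw [ENNReal.ofReal_of_nonpos]
    · simp
    · rw [h0]; simp [hδ]
  obtain ⟨n, hn⟩ : ∃ n, G.card = n + 1 := ⟨G.card - 1, by omega⟩
  set e := G.orderEmbOfFin hn
  set u : ℕ → ℝ := fun i => e ⟨min i n, by omega⟩ with hu
  have hmono : Monotone u := by
    intro i j hij
    refine e.monotone ?_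
    simp only [Fin.mk_le_mk]
    omega
  have hmem : ∀ i, u i ∈ G := fun i => G.orderEmbOfFin_mem hn _
  refine le_trans ?_ (eVariationOn.sum_le (f := ρ) (n := n) hmono fun i => hG _ (hmem i))
  have h1 : ∀ i ∈ Finset.range n, ENNReal.ofReal δ ≤ edist (ρ (u (i + 1))) (ρ (u i)) := by
    intro i hi
    rw [edist_dist]
    refine ENNReal.ofReal_le_ofReal (hsep _ (hmem _) _ (hmem _) ?_)
    intro heq
    have h2 := e.injective heq
    rw [Fin.mk.injEq] at h2
    have := Finset.mem_range.1 hi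
    omega
  calc ENNReal.ofReal ((G.card - 1) * δ) = ∑ i ∈ Finset.range n, ENNReal.ofReal δ := by
        rw [hn, Finset.sum_const, Finset.card_range, nsmul_eq_mul, ENNReal.ofReal_mul]
        · push_cast; simp
        · push_cast; simp
    _ ≤ _ := Finset.sum_le_sum h1

end Pool.Agent.H11.Lit

namespace Pool.Agent.H11.Lit

open Pool.Agent.H14.Jordan

/-- **The parametrisation of a boundary of finite length has finite variation.** -/
theorem eVariationOn_lt_top_of_frontier {D : Set ℂ} {ρ : ℝ → ℂ} (h : IsJD D ρ)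
    (hH : μH[1] (frontier D) < ⊤) (s t : ℝ) : eVariationOn ρ (Icc s t) < ⊤ := by
  rw [h.fr] at hH
  exact (eVariationOn_ne_top h.loop hH s t).lt_top

end Pool.Agent.H11.Lit
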