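import Pool.Agent.H42.MJ.Runs
import Pool.Agent.H42.MJ.Bulk
import Pool.Agent.H11.Lit.Var

set_option autoImplicit false
open Set Topology Filter MeasureTheory
open scoped Real ENNReal
open Pool.Agent.H81.Q1 Pool.Agent.H42.MJ

/-! # The largest component of the vertices of `δℤ²` in `D` contains the bulk -/

namespace Pool.Agent.H11.Lit

/-- A set of finite length is a null set of the plane. -/
lemma volume_zero_of_hausdorff {s : Set ℂ} (h : μH[1] s < ⊤) : volume s = 0 := by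
  have h1 : μH[2] s = 0 :=
    (Measure.hausdorffMeasure_zero_or_top (show (1 : ℝ) < 2 by norm_num) s).resolve_right h.ne
  have hf : LipschitzWith 1 (fun z : ℂ => (z.re, z.im)) := by
    refine LipschitzWith.of_dist_le_mul fun z w => ?_
    rw [NNReal.coe_one, one_mul, Prod.dist_eq]
    refine max_le ?_ ?_
    · rw [Real.dist_eq, dist_eq_norm, ← Complex.sub_re]; exact Complex.abs_re_le_norm _
    · rw [Real.dist_eq, dist_eq_norm, ← Complex.sub_im]; exact Complex.abs_im_le_norm _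
  have h2 : μH[2] ((fun z : ℂ => (z.re, z.im)) '' s) = 0 := by
    have h3 := hf.hausdorffMeasure_image_le (d := 2) (by norm_num) s
    rw [h1, mul_zero] at h3
    exact le_antisymm h3 (by simp)
  rw [hausdorffMeasure_prod_real] at h2
  have h3 := Complex.volume_preserving_equiv_real_prod.measure_preimage_equiv
    ((fun z : ℂ => (z.re, z.im)) '' s)
  rw [h2] at h3
  refine measure_mono_null ?_ h3
  intro z hz
  exact ⟨z, hz, rfl⟩

/-- Half open squares. -/
def Qs (δ : ℝ) (v : ℤ × ℤ) : Set ℂ :=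
  {z | (δ * v.1 ≤ z.re ∧ z.re < δ * (v.1 + 1)) ∧ (δ * v.2 ≤ z.im ∧ z.im < δ * (v.2 + 1))}

variable {δ : ℝ}

lemma Qs_eq (δ : ℝ) (v : ℤ × ℤ) : Qs δ v = Complex.measurableEquivRealProd ⁻¹'
    (Ico (δ * v.1) (δ * (v.1 + 1)) ×ˢ Ico (δ * v.2) (δ * (v.2 + 1))) := rfl

lemma measurableSet_Qs (δ : ℝ) (v : ℤ × ℤ) : MeasurableSet (Qs δ v) := by
  rw [Qs_eq]
  exact Complex.measurableEquivRealProd.measurable (measurableSet_Ico.prod measurableSet_Ico)

lemma volume_Qs (hδ : 0 < δ) (v : ℤ × ℤ) : volume (Qs δ v) = ENNReal.ofReal (δ * δ) := by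
  rw [Qs_eq, Complex.volume_preserving_equiv_real_prod.measure_preimage_equiv,
    Measure.volume_eq_prod, Measure.prod_prod, Real.volume_Ico, Real.volume_Ico,
    ← ENNReal.ofReal_mul (by linarith)]
  congr 1
  ring

lemma exists_Qs (hδ : 0 < δ) (z : ℂ) : ∃ v, z ∈ Qs δ v := by
  refine ⟨(⌊z.re / δ⌋, ⌊z.im / δ⌋), ⟨?_, ?_⟩, ?_, ?_⟩
  · have := Int.floor_le (z.re / δ)
    rw [le_div_iff₀ hδ] at this; simp only; linarith
  · have := Int.lt_floor_add_one (z.re / δ)
    rw [div_lt_iff₀ hδ] at this; simp only; linarith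
  · have := Int.floor_le (z.im / δ)
    rw [le_div_iff₀ hδ] at this; simp only; linarith
  · have := Int.lt_floor_add_one (z.im / δ)
    rw [div_lt_iff₀ hδ] at this; simp only; linarith

lemma norm_sub_of_mem_Qs (hδ : 0 < δ) {v : ℤ × ℤ} {z : ℂ} (hz : z ∈ Qs δ v) :
    dist z (pt δ v) ≤ 2 * δ := by
  obtain ⟨⟨h1, h2⟩, h3, h4⟩ := hz
  rw [dist_eq_norm]
  refine (Complex.norm_le_abs_re_add_abs_im _).trans ?_
  simp only [Complex.sub_re, Complex.sub_im, pt]
  have e1 : |z.re - δ * (v.1 : ℝ)| ≤ δ := by rw [abs_le]; constructor <;> linarith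
  have e2 : |z.im - δ * (v.2 : ℝ)| ≤ δ := by rw [abs_le]; constructor <;> linarith
  linarith

lemma disjoint_Qs (hδ : 0 < δ) {v w : ℤ × ℤ} (h : v ≠ w) : Disjoint (Qs δ v) (Qs δ w) := by
  rw [Set.disjoint_left]
  rintro z ⟨⟨h1, h2⟩, h3, h4⟩ ⟨⟨k1, k2⟩, k3, k4⟩
  have key : ∀ m n : ℤ, δ * (m : ℝ) < δ * (n + 1) → m < n + 1 := by
    intro m n h
    have := lt_of_mul_lt_mul_left h hδ.le
    exact_mod_cast this
  have a1 := key _ _ (h1.trans_lt k2)
  have a2 := key _ _ (k1.trans_lt h2)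
  have a3 := key _ _ (h3.trans_lt k4)
  have a4 := key _ _ (k3.trans_lt h4)
  exact h (Prod.ext (by omega) (by omega))

lemma card_mul_le_volume (hδ : 0 < δ) (F : Finset (ℤ × ℤ)) {S : Set ℂ}
    (h : ∀ v ∈ F, Qs δ v ⊆ S) : (F.card : ℝ≥0∞) * ENNReal.ofReal (δ * δ) ≤ volume S := by
  calc (F.card : ℝ≥0∞) * ENNReal.ofReal (δ * δ) = ∑ v ∈ F, volume (Qs δ v) := by
        rw [Finset.sum_congr rfl (fun v _ => volume_Qs hδ v), Finset.sum_const, nsmul_eq_mul]
    _ = volume (⋃ v ∈ F, Qs δ v) := by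
        rw [measure_biUnion_finset]
        · intro v _ w _ hvw; exact disjoint_Qs hδ hvw
        · intro v _; exact measurableSet_Qs δ v
    _ ≤ volume S := measure_mono (iUnion₂_subset h)

lemma volume_le_card_mul (hδ : 0 < δ) (F : Finset (ℤ × ℤ)) {S : Set ℂ}
    (h : ∀ z ∈ S, ∃ v ∈ F, z ∈ Qs δ v) :
    volume S ≤ (F.card : ℝ≥0∞) * ENNReal.ofReal (δ * δ) := by
  calc volume S ≤ volume (⋃ v ∈ F, Qs δ v) := measure_mono (by
        intro z hz
        obtain ⟨v, hv, hz⟩ := h z hz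
        exact mem_iUnion₂.2 ⟨v, hv, hz⟩)
    _ ≤ ∑ v ∈ F, volume (Qs δ v) := measure_biUnion_finset_le _ _
    _ = _ := by
        rw [Finset.sum_congr rfl (fun v _ => volume_Qs hδ v), Finset.sum_const, nsmul_eq_mul]

/-- Nearest-neighbour adjacency of the vertices of `δℤ²` in `D`. -/
def VG (D : Set ℂ) (δ : ℝ) : SimpleGraph (ℤ × ℤ) where
  Adj u v := Z2.Adj u v ∧ pt δ u ∈ D ∧ pt δ v ∈ D
  symm := ⟨fun _ _ h => ⟨h.1.symm, h.2.2, h.2.1⟩⟩
  loopless := ⟨fun u h => Z2.loopless.irrefl u h.1⟩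

variable {D : Set ℂ}

lemma GD_le_VG : GD D δ ≤ VG D δ := by
  intro u v h
  obtain ⟨q, rfl, h2⟩ := adj_iff.1 h
  exact ⟨h.1, h2.mem, h2.mem'⟩

/-- Components of the vertices in `D`. -/
structure IsVC (D : Set ℂ) (δ : ℝ) (V : Set (ℤ × ℤ)) : Prop where
  sub : ∀ v ∈ V, pt δ v ∈ D
  comp : ∀ u ∈ V, ∀ v, v ∈ V ↔ (VG D δ).Reachable u v

lemma isVC_reachable {u : ℤ × ℤ} (hu : pt δ u ∈ D) : IsVC D δ {v | (VG D δ).Reachable u v} where
  sub := by
    intro v hv
    have hv' : (VG D δ).Reachable u v := hv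
    rw [SimpleGraph.reachable_iff_reflTransGen] at hv'
    rcases hv'.cases_tail with h | ⟨w, -, h⟩
    · rw [h]; exact hu
    · exact h.2.2
  comp := by
    intro w hw v
    have hw' : (VG D δ).Reachable u w := hw
    exact ⟨fun hv => hw'.symm.trans hv, fun hv => hw'.trans hv⟩

/-- **The largest component contains the bulk**, if the boundary is a null set. -/
theorem bulk_of_largest (hD : IsOpen D) (hc : IsPreconnected D) (hb : Bornology.IsBounded D)
    (h0 : volume (frontier D) = 0) {z0 : ℂ} (hz0 : z0 ∈ D) :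
    ∃ r > 0, ∀ δ, 0 < δ → δ < r → ∀ V : Set (ℤ × ℤ), IsVC D δ V →
      (∀ V', IsVC D δ V' → V'.ncard ≤ V.ncard) → ∀ u : ℤ × ℤ, ‖pt δ u - z0‖ < r → u ∈ V := by
  classical
  have hDpos : 0 < volume D := hD.measure_pos volume ⟨z0, hz0⟩
  have hDfin : volume D ≠ ⊤ := hb.measure_lt_top.ne
  have hhalf : volume D / 2 < volume D := ENNReal.half_lt_self hDpos.ne' hDfin
  obtain ⟨K0, hK0D, hK0, hK0v⟩ := hD.exists_lt_isCompact hhalf
  obtain ⟨K, hK, hK0K, hKD⟩ := exists_compact_between hK0 hD hK0D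
  -- a small neighbourhood of the rest
  set C := closure (D \ K) with hC
  have hCsub : C ⊆ (D \ K0) ∪ frontier D := by
    intro z hz
    have h1 : z ∈ closure D := closure_mono sdiff_subset hz
    have h2 : z ∉ interior K := by
      intro h
      obtain ⟨w, hw1, hw2⟩ := mem_closure_iff.1 hz _ isOpen_interior h
      exact hw2.2 (interior_subset hw1)
    by_cases h3 : z ∈ D
    · exact Or.inl ⟨h3, fun h => h2 (hK0K h)⟩
    · right
      rw [hD.frontier_eq]
      exact ⟨h1, h3⟩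
  have hCv : volume C < volume D / 2 := by
    have h1 : volume C ≤ volume (D \ K0) := by
      refine (measure_mono hCsub).trans ((measure_union_le _ _).trans ?_)
      rw [h0, add_zero]
    refine h1.trans_lt ?_
    rw [measure_sdiff hK0D hK0.measurableSet.nullMeasurableSet
      (ne_top_of_le_ne_top hDfin (measure_mono hK0D))]
    rw [ENNReal.sub_lt_iff_lt_right (ne_top_of_le_ne_top hDfin (measure_mono hK0D))
      (measure_mono hK0D)]
    calc volume D = volume D / 2 + volume D / 2 := (ENNReal.add_halves _).symm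
      _ < volume D / 2 + volume K0 := by
        refine ENNReal.add_lt_add_left ?_ hK0v
        exact ne_top_of_le_ne_top hDfin hhalf.le
  have hCc : IsCompact C := (hb.subset sdiff_subset).isCompact_closure
  have hlim := tendsto_measure_cthickening_of_isCompact (μ := volume) hCc
  obtain ⟨r1, hr1, H1⟩ := Metric.eventually_nhds_iff.1 (hlim.eventually (gt_mem_nhds hCv))
  -- the squares of `K0` have their vertices in `K`
  obtain ⟨r2, hr2, H2⟩ := hK0.exists_thickening_subset_open isOpen_interior hK0K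
  obtain ⟨r3, hr3, H3⟩ := bulk_compact hD hc hz0 hK hKD
  refine ⟨min (min r1 r2) r3 / 4, by positivity, ?_⟩
  intro δ hδ hδr V hV hmax u hu
  have e1 : min (min r1 r2) r3 ≤ r1 := (min_le_left _ _).trans (min_le_left _ _)
  have e2 : min (min r1 r2) r3 ≤ r2 := (min_le_left _ _).trans (min_le_right _ _)
  have e3 : min (min r1 r2) r3 ≤ r3 := min_le_right _ _
  have hfinD := finite_lattice hδ hb
  have hfinK : {v : ℤ × ℤ | pt δ v ∈ K}.Finite := hfinD.subset fun v hv => hKD hv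
  have hfinC : {v : ℤ × ℤ | pt δ v ∈ D \ K}.Finite := hfinD.subset fun v hv => hv.1
  -- counting
  have c1 : volume K0 ≤ (hfinK.toFinset.card : ℝ≥0∞) * ENNReal.ofReal (δ * δ) := by
    refine volume_le_card_mul hδ _ fun z hz => ?_
    obtain ⟨v, hv⟩ := exists_Qs hδ z
    refine ⟨v, ?_, hv⟩
    rw [Set.Finite.mem_toFinset]
    change pt δ v ∈ K
    refine interior_subset (H2 ?_)
    rw [Metric.mem_thickening_iff]
    refine ⟨z, hz, ?_⟩
    have := norm_sub_of_mem_Qs hδ hv
    rw [dist_comm] at this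
    linarith
  have c2 : (hfinC.toFinset.card : ℝ≥0∞) * ENNReal.ofReal (δ * δ) < volume D / 2 := by
    refine lt_of_le_of_lt (card_mul_le_volume hδ _ (S := Metric.cthickening (2 * δ) C) ?_)
      (H1 ?_)
    · intro v hv z hz
      rw [Set.Finite.mem_toFinset] at hv
      exact Metric.mem_cthickening_of_dist_le z (pt δ v) _ _ (subset_closure hv)
        (norm_sub_of_mem_Qs hδ hz)
    · rw [Real.dist_eq, sub_zero, abs_of_pos (by positivity)]; linarith
  have c3 : hfinC.toFinset.card < hfinK.toFinset.card := by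
    have h1 := c2.trans (hK0v.trans_le c1)
    by_contra hcon
    push Not at hcon
    refine absurd h1 (not_lt.2 ?_)
    gcongr
  -- the component of the vertices near `z0`
  have huD : ∀ w : ℤ × ℤ, ∀ v : ℤ × ℤ, ‖pt δ w - z0‖ < min (min r1 r2) r3 / 4 → pt δ v ∈ K →
      (VG D δ).Reachable w v := by
    intro w v hw hv
    exact (H3 δ hδ (by linarith) w v (by linarith) hv).mono GD_le_VG
  by_cases hex : ∃ w ∈ V, pt δ w ∈ K
  · obtain ⟨w, hw, hwK⟩ := hex
    exact (hV.comp w hw u).2 (huD u w hu hwK).symm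
  · exfalso
    push Not at hex
    have hK1 : hfinK.toFinset.Nonempty := Finset.card_pos.1 (by omega)
    obtain ⟨w0, hw0⟩ := hK1
    rw [Set.Finite.mem_toFinset] at hw0
    have hw0' : pt δ w0 ∈ K := hw0
    have h2 := hmax _ (isVC_reachable (hKD hw0'))
    have h3 : hfinK.toFinset.card ≤ {v | (VG D δ).Reachable w0 v}.ncard := by
      rw [← Set.ncard_eq_toFinset_card _ hfinK]
      refine Set.ncard_le_ncard ?_ (hfinD.subset (isVC_reachable (hKD hw0')).sub)
      intro v hv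
      exact (huD u w0 hu hw0').symm.trans (huD u v hu hv)
    have h4 : V.ncard ≤ hfinC.toFinset.card := by
      rw [← Set.ncard_eq_toFinset_card _ hfinC]
      exact Set.ncard_le_ncard (fun v hv => ⟨hV.sub v hv, hex v hv⟩) hfinC
    omega

/-- **The largest component contains the bulk**, for a boundary of finite length. -/
theorem bulk_of_largest_length (hD : IsOpen D) (hc : IsPreconnected D)
    (hb : Bornology.IsBounded D) (h0 : μH[1] (frontier D) < ⊤) {z0 : ℂ} (hz0 : z0 ∈ D) :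
    ∃ r > 0, ∀ δ, 0 < δ → δ < r → ∀ V : Set (ℤ × ℤ), IsVC D δ V →
      (∀ V', IsVC D δ V' → V'.ncard ≤ V.ncard) → ∀ u : ℤ × ℤ, ‖pt δ u - z0‖ < r → u ∈ V :=
  bulk_of_largest hD hc hb (volume_zero_of_hausdorff h0) hz0

/-- **Filling**: the largest component contains every compact part of `D`. -/
theorem fill_of_largest (hD : IsOpen D) (hc : IsPreconnected D)
    (hb : Bornology.IsBounded D) (h0 : μH[1] (frontier D) < ⊤) {K : Set ℂ} (hK : IsCompact K)
    (hKD : K ⊆ D) :
    ∃ r > 0, ∀ δ, 0 < δ → δ < r → ∀ V : Set (ℤ × ℤ), IsVC D δ V →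
      (∀ V', IsVC D δ V' → V'.ncard ≤ V.ncard) → ∀ v : ℤ × ℤ, pt δ v ∈ K → v ∈ V := by
  rcases D.eq_empty_or_nonempty with h | ⟨z0, hz0⟩
  · subst h
    exact ⟨1, one_pos, fun δ _ _ V _ _ v hv => absurd (hKD hv) (notMem_empty _)⟩
  obtain ⟨r1, hr1, H1⟩ := bulk_of_largest_length hD hc hb h0 hz0
  obtain ⟨r2, hr2, H2⟩ := bulk_compact hD hc hz0 hK hKD
  refine ⟨min r1 r2 / 4, by positivity, fun δ hδ hδr V hV hmax v hv => ?_⟩
  have e1 := min_le_left r1 r2
  have e2 := min_le_right r1 r2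
  obtain ⟨u, hu⟩ := exists_pt hδ z0
  have h1 := H1 δ hδ (by linarith) V hV hmax u (by linarith)
  exact (hV.comp u h1 v).2 ((H2 δ hδ (by linarith) u v (by linarith) hv).mono GD_le_VG)

end Pool.Agent.H11.Lit
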