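import Pool.Agent.H11.Lit.Fill
import Pool.Agent.H42.MJ.Main

set_option autoImplicit false
open Set Topology Filter MeasureTheory
open scoped Real ENNReal
open Pool.Agent.H81.Q1 Pool.Agent.H42.MJ

/-! # The filled largest component is a discrete domain with marked corners near `a` and `b` -/

namespace Pool.Agent.H11.Lit

variable {V : Set (ℤ × ℤ)} {D : Set ℂ} {δ : ℝ}

lemma finite_filled (hδ : 0 < δ) (hb : Bornology.IsBounded D) (hV : ∀ v ∈ V, pt δ v ∈ D) :
    (filled V).Finite := by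
  obtain ⟨R, hR⟩ := hb.subset_ball 0
  have hVR : ∀ v ∈ V, ‖pt δ v‖ < R := fun v hv => by
    have := hR (hV v hv)
    rwa [Metric.mem_ball, dist_zero_right] at this
  refine (finite_lattice hδ (D := Metric.ball 0 R) Metric.isBounded_ball).subset ?_
  intro v hv
  change pt δ v ∈ Metric.ball 0 R
  rw [Metric.mem_ball, dist_zero_right]
  by_contra hcon
  push Not at hcon
  exact hv (escapes_of_far hδ hVR hcon)

lemma rel_symm {W : Set (ℤ × ℤ)} {u v : ℤ × ℤ}
    (h : Relation.ReflTransGen (fun x y => s(x, y) ∈ edges W) u v) :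
    Relation.ReflTransGen (fun x y => s(x, y) ∈ edges W) v u := by
  induction h with
  | refl => exact Relation.ReflTransGen.refl
  | tail _ h2 ih => exact Relation.ReflTransGen.head (by rw [Sym2.eq_swap]; exact h2) ih

lemma add_zero_pair (u : ℤ × ℤ) : u + ((0 : ℤ), (0 : ℤ)) = u := by ext <;> simp

lemma conn_to_V (hfin : (filled V).Finite) {u : ℤ × ℤ} (hu : u ∈ filled V) :
    ∃ w ∈ V, Relation.ReflTransGen (fun x y => s(x, y) ∈ edges (filled V)) u w := by
  have key : ∀ n : ℕ, ∀ u ∈ filled V, u + ((n : ℤ), 0) ∈ V →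
      ∃ w ∈ V, Relation.ReflTransGen (fun x y => s(x, y) ∈ edges (filled V)) u w := by
    intro n
    induction n with
    | zero =>
      intro u _ h
      exact ⟨u, by simpa [add_zero_pair] using h, Relation.ReflTransGen.refl⟩
    | succ n ih =>
      intro u hu h
      by_cases huV : u ∈ V
      · exact ⟨u, huV, Relation.ReflTransGen.refl⟩
      have h1 : u + dir 0 ∈ filled V := by
        by_contra hcon
        exact huV (mem_of_closed hu hcon)
      have h2 : u + dir 0 + ((n : ℤ), 0) ∈ V := by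
        convert h using 1
        rw [dir_0, add_assoc]
        congr 1
        ext <;> simp; ring
      obtain ⟨w, hw, hr⟩ := ih _ h1 h2
      exact ⟨w, hw, Relation.ReflTransGen.head ((edges_iff 0 hu).2 h1) hr⟩
  by_cases hex : ∃ n : ℕ, u + ((n : ℤ), 0) ∈ V
  · obtain ⟨n, hn⟩ := hex
    exact key n u hu hn
  · exfalso
    push Not at hex
    refine hu ⟨by simpa [add_zero_pair] using hex 0, fun N => ?_⟩
    have hreach : ∀ n : ℕ, Relation.ReflTransGen (kStep V) u (u + ((n : ℤ), 0)) := by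
      intro n
      induction n with
      | zero => simp only [Nat.cast_zero, add_zero_pair]; exact Relation.ReflTransGen.refl
      | succ n ih =>
        refine ih.tail ⟨hex (n + 1), ?_, by simp⟩
        simp only [Prod.fst_add]
        rw [show u.1 + (n : ℤ) - (u.1 + ((n + 1 : ℕ) : ℤ)) = -1 by push_cast; ring]
        simp
    refine ⟨_, hreach (N.toNat + u.1.natAbs), ?_⟩
    simp only [Prod.fst_add, Prod.snd_add]
    have h1 := Int.self_le_toNat N
    have h2 := abs_nonneg (u.2 + 0)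
    have h3 : u.1 + ((N.toNat + u.1.natAbs : ℕ) : ℤ) ≤
        |u.1 + ((N.toNat + u.1.natAbs : ℕ) : ℤ)| := le_abs_self _
    push_cast at h3 ⊢
    have h4 := neg_abs_le u.1
    omega

lemma conn_filled (hV : IsVC D δ V) (hfin : (filled V).Finite) (u : ℤ × ℤ) (hu : u ∈ filled V)
    (v : ℤ × ℤ) (hv : v ∈ filled V) :
    Relation.ReflTransGen (fun x y => s(x, y) ∈ edges (filled V)) u v := by
  obtain ⟨u', hu', h1⟩ := conn_to_V hfin hu
  obtain ⟨v', hv', h2⟩ := conn_to_V hfin hv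
  refine (h1.trans ?_).trans (rel_symm h2)
  have h3 := (hV.comp u' hu' v').1 hv'
  rw [SimpleGraph.reachable_iff_reflTransGen] at h3
  clear h1 h2 hv' hv
  induction h3 with
  | refl => exact Relation.ReflTransGen.refl
  | @tail b c h4 h5 ih =>
    refine ih.tail ⟨h5.1, ?_⟩
    have hb : b ∈ V := (hV.comp u' hu' b).2 ((SimpleGraph.reachable_iff_reflTransGen _ _).2 h4)
    have hc : c ∈ V := (hV.comp b hb c).2 h5.reachable
    intro w hw
    rcases Sym2.mem_iff.1 hw with rfl | rfl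
    · exact subset_filled hb
    · exact subset_filled hc

/-- The filled component as a discrete domain. -/
def toFD (hδ : 0 < δ) (hb : Bornology.IsBounded D) (hV : IsVC D δ V) (α β : Corner)
    (hα : α.1 ∈ filled V) (hβ : β.1 ∈ filled V) (oα : α.1 + dir α.2 ∉ filled V)
    (oβ : β.1 + dir β.2 ∉ filled V) (hne : α.1 ≠ β.1) : DDomain where
  V := filled V
  E := edges (filled V)
  finV := finite_filled hδ hb hV.sub
  subE := Subset.rfl
  conn := conn_filled hV (finite_filled hδ hb hV.sub)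
  noHole := by
    intro c hc he
    refine isOuter_filled fun h => he ?_
    exact (edges_iff c.2 hc).2 h
  α := α
  β := β
  memα := hα
  memβ := hβ
  outα := isOuter_filled oα
  outβ := isOuter_filled oβ
  ne := hne

/-- Existence of a largest component. -/
lemma exists_largest_VC (hδ : 0 < δ) (hb : Bornology.IsBounded D) (hne : ∃ v, pt δ v ∈ D) :
    ∃ V0, IsVC D δ V0 ∧ ∀ V', IsVC D δ V' → V'.ncard ≤ V0.ncard := by
  obtain ⟨v0, h0, hmax⟩ := Set.exists_max_image {v : ℤ × ℤ | pt δ v ∈ D}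
    (fun v => {w | (VG D δ).Reachable v w}.ncard) (finite_lattice hδ hb) hne
  refine ⟨_, isVC_reachable h0, fun V' hV' => ?_⟩
  rcases V'.eq_empty_or_nonempty with h | ⟨u, hu⟩
  · rw [h, Set.ncard_empty]; exact Nat.zero_le _
  · have h1 : V' = {w | (VG D δ).Reachable u w} := by
      ext w; exact hV'.comp u hu w
    rw [h1]
    exact hmax u (hV'.sub u hu)

/-- A staircase from a set to its complement leaves the set. -/
lemma exists_exit {W : Set (ℤ × ℤ)} (n : ℕ) : ∀ v1 v2 : ℤ × ℤ, v1 ∈ W → v2 ∉ W →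
    (v1.1 - v2.1).natAbs + (v1.2 - v2.2).natAbs = n →
    ∃ v q, v ∈ W ∧ v + dir q ∉ W ∧ (min v1.1 v2.1 ≤ v.1 ∧ v.1 ≤ max v1.1 v2.1) ∧
      (min v1.2 v2.2 ≤ v.2 ∧ v.2 ≤ max v1.2 v2.2) := by
  induction n with
  | zero =>
    intro v1 v2 h1 h2 h3
    have : v1 = v2 := Prod.ext (by omega) (by omega)
    rw [this] at h1
    exact absurd h1 h2
  | succ n ih =>
    intro v1 v2 h1 h2 h3
    have step : ∀ q : ZMod 4, (min v1.1 v2.1 ≤ (v1 + dir q).1 ∧ (v1 + dir q).1 ≤ max v1.1 v2.1) →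
        (min v1.2 v2.2 ≤ (v1 + dir q).2 ∧ (v1 + dir q).2 ≤ max v1.2 v2.2) →
        ((v1 + dir q).1 - v2.1).natAbs + ((v1 + dir q).2 - v2.2).natAbs = n →
        ∃ v q, v ∈ W ∧ v + dir q ∉ W ∧ (min v1.1 v2.1 ≤ v.1 ∧ v.1 ≤ max v1.1 v2.1) ∧
          (min v1.2 v2.2 ≤ v.2 ∧ v.2 ≤ max v1.2 v2.2) := by
      intro q k1 k2 k3
      by_cases hq : v1 + dir q ∈ W
      · obtain ⟨v, p, m1, m2, m3, m4⟩ := ih _ v2 hq h2 k3
        refine ⟨v, p, m1, m2, ?_, ?_⟩ <;> omega
      · exact ⟨v1, q, h1, hq, by omega, by omega⟩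
    by_cases c1 : v1.1 = v2.1
    · rcases lt_or_gt_of_ne (show v1.2 ≠ v2.2 by omega) with c2 | c2
      · refine step 1 ?_ ?_ ?_ <;> simp only [dir_1, Prod.fst_add, Prod.snd_add] <;> omega
      · refine step 3 ?_ ?_ ?_ <;> simp only [dir_3, Prod.fst_add, Prod.snd_add] <;> omega
    · rcases lt_or_gt_of_ne c1 with c2 | c2
      · refine step 0 ?_ ?_ ?_ <;> simp only [dir_0, Prod.fst_add, Prod.snd_add] <;> omega
      · refine step 2 ?_ ?_ ?_ <;> simp only [dir_2, Prod.fst_add, Prod.snd_add] <;> omega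

/-- A closed corner near a boundary point. -/
theorem exists_corner_near (h : IsJordanDomain D) (hH : μH[1] (frontier D) < ⊤) {a : ℂ}
    (ha : a ∈ frontier D) {ε : ℝ} (hε : 0 < ε) :
    ∃ r > 0, ∀ δ, 0 < δ → δ < r → ∀ V : Set (ℤ × ℤ), IsVC D δ V →
      (∀ V', IsVC D δ V' → V'.ncard ≤ V.ncard) →
      ∃ c : Corner, c.1 ∈ filled V ∧ c.1 + dir c.2 ∉ filled V ∧ dist (pt δ c.1) a < ε := by
  have hJ := jTop h
  obtain ⟨z1, hz1, hz1a⟩ := Metric.mem_closure_iff.1 (frontier_subset_closure ha) (ε / 8)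
    (by positivity)
  obtain ⟨z2, hz2, hz2a⟩ := Metric.mem_closure_iff.1 (hJ.extc ha) (ε / 8) (by positivity)
  obtain ⟨ρ, hρ, hball⟩ := Metric.isOpen_iff.1 h.1 z1 hz1
  obtain ⟨r1, hr1, H1⟩ := fill_of_largest h.1 hJ.conn hJ.bdd hH
    (isCompact_closedBall z1 (ρ / 2)) ((Metric.closedBall_subset_ball (by linarith)).trans hball)
  have hne : D.Nonempty := ⟨z1, hz1⟩
  have hη : 0 < Metric.infDist z2 D := by
    rcases (Metric.infDist_nonneg (x := z2) (s := D)).eq_or_lt with h1 | h1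
    · exact absurd ((Metric.mem_closure_iff_infDist_zero hne).2 h1.symm) hz2
    · exact h1
  obtain ⟨r2, hr2, H2⟩ := filled_near hJ (half_pos hη)
  set η := Metric.infDist z2 D with hηd
  refine ⟨min (min r1 r2) (min (min ρ η) ε) / 16, by positivity, ?_⟩
  intro δ hδ hδr V hV hmax
  have e1 : min (min r1 r2) (min (min ρ η) ε) ≤ r1 := (min_le_left _ _).trans (min_le_left _ _)
  have e2 : min (min r1 r2) (min (min ρ η) ε) ≤ r2 := (min_le_left _ _).trans (min_le_right _ _)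
  have e3 : min (min r1 r2) (min (min ρ η) ε) ≤ ρ :=
    (min_le_right _ _).trans ((min_le_left _ _).trans (min_le_left _ _))
  have e4 : min (min r1 r2) (min (min ρ η) ε) ≤ η :=
    (min_le_right _ _).trans ((min_le_left _ _).trans (min_le_right _ _))
  have e5 : min (min r1 r2) (min (min ρ η) ε) ≤ ε :=
    (min_le_right _ _).trans (min_le_right _ _)
  obtain ⟨v1, hv1⟩ := exists_pt hδ z1
  obtain ⟨v2, hv2⟩ := exists_pt hδ z2
  have m1 : v1 ∈ filled V := subset_filled (H1 δ hδ (by linarith) V hV hmax v1 (by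
    rw [Metric.mem_closedBall, dist_eq_norm]; linarith))
  have m2 : v2 ∉ filled V := by
    intro hcon
    have k1 := H2 δ hδ (by linarith) V hV.sub v2 hcon
    have k2 := Metric.infDist_le_infDist_add_dist (s := D) (x := z2) (y := pt δ v2)
    rw [dist_comm, dist_eq_norm] at k2
    linarith
  obtain ⟨v, q, n1, n2, n3, n4⟩ := exists_exit _ v1 v2 m1 m2 rfl
  refine ⟨(v, q), n1, n2, ?_⟩
  have b1 : ‖pt δ v1 - a‖ < ε / 4 := by
    have := norm_add_le (pt δ v1 - z1) (z1 - a)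
    rw [sub_add_sub_cancel] at this
    rw [dist_comm, dist_eq_norm] at hz1a
    linarith
  have b2 : ‖pt δ v2 - a‖ < ε / 4 := by
    have := norm_add_le (pt δ v2 - z2) (z2 - a)
    rw [sub_add_sub_cancel] at this
    rw [dist_comm, dist_eq_norm] at hz2a
    linarith
  have c1 := (Complex.abs_re_le_norm (pt δ v1 - a)).trans_lt b1
  have c2 := (Complex.abs_im_le_norm (pt δ v1 - a)).trans_lt b1
  have c3 := (Complex.abs_re_le_norm (pt δ v2 - a)).trans_lt b2
  have c4 := (Complex.abs_im_le_norm (pt δ v2 - a)).trans_lt b2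
  rw [Complex.sub_re, abs_lt] at c1 c3
  rw [Complex.sub_im, abs_lt] at c2 c4
  simp only [pt] at c1 c2 c3 c4
  have key : ∀ x y z : ℤ, ∀ r : ℝ, min x y ≤ z → z ≤ max x y → -(ε / 4) < δ * (x : ℝ) - r →
      δ * (x : ℝ) - r < ε / 4 → -(ε / 4) < δ * (y : ℝ) - r → δ * (y : ℝ) - r < ε / 4 →
      |δ * (z : ℝ) - r| < ε / 4 := by
    intro x y z r h1 h2 h3 h4 h5 h6
    rw [abs_lt]
    constructor
    · rcases min_le_iff.1 h1 with h7 | h7
      · have : δ * (x : ℝ) ≤ δ * z := mul_le_mul_of_nonneg_left (by exact_mod_cast h7) hδ.le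
        linarith
      · have : δ * (y : ℝ) ≤ δ * z := mul_le_mul_of_nonneg_left (by exact_mod_cast h7) hδ.le
        linarith
    · rcases le_max_iff.1 h2 with h7 | h7
      · have : δ * (z : ℝ) ≤ δ * x := mul_le_mul_of_nonneg_left (by exact_mod_cast h7) hδ.le
        linarith
      · have : δ * (z : ℝ) ≤ δ * y := mul_le_mul_of_nonneg_left (by exact_mod_cast h7) hδ.le
        linarith
  rw [dist_eq_norm]
  refine (Complex.norm_le_abs_re_add_abs_im _).trans_lt ?_
  simp only [Complex.sub_re, Complex.sub_im, pt]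
  have d1 := key v1.1 v2.1 v.1 a.re n3.1 n3.2 c1.1 c1.2 c3.1 c3.2
  have d2 := key v1.2 v2.2 v.2 a.im n4.1 n4.2 c2.1 c2.2 c4.1 c4.2
  linarith

/-- **Existence of the discrete domains.** -/
theorem exists_filled (h : IsJordanDomain D) (hH : μH[1] (frontier D) < ⊤) {a b : ℂ}
    (ha : a ∈ frontier D) (hb : b ∈ frontier D) (hab : a ≠ b) {ε : ℝ} (hε : 0 < ε) :
    ∃ δ₀ > 0, ∀ δ, 0 < δ → δ < δ₀ → ∃ (X : DDomain) (V : Set (ℤ × ℤ)), IsVC D δ V ∧
      (∀ V', IsVC D δ V' → V'.ncard ≤ V.ncard) ∧ X.V = filled V ∧ X.E = edges X.V ∧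
      X.α.edge ∉ X.E ∧ X.β.edge ∉ X.E ∧ dist (pt δ X.α.1) a < ε ∧ dist (pt δ X.β.1) b < ε := by
  have hd : 0 < dist a b := dist_pos.2 hab
  obtain ⟨r1, hr1, H1⟩ := exists_corner_near h hH ha (show 0 < min ε (dist a b / 2) by positivity)
  obtain ⟨r2, hr2, H2⟩ := exists_corner_near h hH hb (show 0 < min ε (dist a b / 2) by positivity)
  obtain ⟨z, hz⟩ := h.2.1.nonempty
  obtain ⟨r3, hr3, hball⟩ := Metric.isOpen_iff.1 h.1 z hz
  refine ⟨min (min r1 r2) r3 / 4, by positivity, fun δ hδ hδr => ?_⟩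
  have e1 : min (min r1 r2) r3 ≤ r1 := (min_le_left _ _).trans (min_le_left _ _)
  have e2 : min (min r1 r2) r3 ≤ r2 := (min_le_left _ _).trans (min_le_right _ _)
  have e3 : min (min r1 r2) r3 ≤ r3 := min_le_right _ _
  obtain ⟨u, hu⟩ := exists_pt hδ z
  obtain ⟨V, hV, hmax⟩ := exists_largest_VC hδ h.2.2.1
    ⟨u, hball (by rw [Metric.mem_ball, dist_eq_norm]; linarith)⟩
  obtain ⟨ca, a1, a2, a3⟩ := H1 δ hδ (by linarith) V hV hmax
  obtain ⟨cb, b1, b2, b3⟩ := H2 δ hδ (by linarith) V hV hmax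
  have hne : ca.1 ≠ cb.1 := by
    intro heq
    have k1 := lt_of_lt_of_le a3 (min_le_right _ _)
    have k2 := lt_of_lt_of_le b3 (min_le_right _ _)
    rw [heq] at k1
    have k3 := dist_triangle_left a b (pt δ cb.1)
    linarith
  refine ⟨toFD hδ h.2.2.1 hV ca cb a1 b1 a2 b2 hne, V, hV, hmax, rfl, rfl, ?_, ?_,
    lt_of_lt_of_le a3 (min_le_left _ _), lt_of_lt_of_le b3 (min_le_left _ _)⟩
  · exact fun he => a2 ((edges_iff ca.2 a1).1 he)
  · exact fun he => b2 ((edges_iff cb.2 b1).1 he)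

end Pool.Agent.H11.Lit
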