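import Pool.Agent.H11.Lit.Bulk
import Pool.Agent.H42.MJ.Top

set_option autoImplicit false
open Set Topology Filter MeasureTheory
open scoped Real ENNReal
open Pool.Agent.H81.Q1 Pool.Agent.H42.MJ

/-! # Filling the holes of a component -/

namespace Pool.Agent.H11.Lit

/-- A king move to a point off `V`. -/
def kStep (V : Set (ℤ × ℤ)) (u w : ℤ × ℤ) : Prop := w ∉ V ∧ |u.1 - w.1| ≤ 1 ∧ |u.2 - w.2| ≤ 1

/-- `v` is off `V` and joined to infinity by king moves off `V`. -/
def Escapes (V : Set (ℤ × ℤ)) (v : ℤ × ℤ) : Prop :=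
  v ∉ V ∧ ∀ n : ℤ, ∃ w, Relation.ReflTransGen (kStep V) v w ∧ n ≤ |w.1| + |w.2|

/-- `V` together with its holes. -/
def filled (V : Set (ℤ × ℤ)) : Set (ℤ × ℤ) := {v | ¬Escapes V v}

variable {V : Set (ℤ × ℤ)} {D : Set ℂ} {δ : ℝ}

lemma subset_filled : V ⊆ filled V := fun _ hv h => h.1 hv

lemma not_mem_filled {v : ℤ × ℤ} : v ∉ filled V ↔ Escapes V v := not_not

lemma filled_eq_self (h : ∀ v, v ∉ V → Escapes V v) : filled V = V :=
  Subset.antisymm (fun v hv => by_contra fun hv' => hv (h v hv')) subset_filled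

lemma Escapes.step {u w : ℤ × ℤ} (hw : Escapes V w) (hu : u ∉ V) (h1 : |u.1 - w.1| ≤ 1)
    (h2 : |u.2 - w.2| ≤ 1) : Escapes V u := by
  refine ⟨hu, fun n => ?_⟩
  obtain ⟨z, hz, hn⟩ := hw.2 n
  exact ⟨z, (Relation.ReflTransGen.single ⟨hw.1, h1, h2⟩).trans hz, hn⟩

lemma Escapes.reach {u w : ℤ × ℤ} (hu : Escapes V u) (h : Relation.ReflTransGen (kStep V) u w) :
    Escapes V w := by
  induction h with
  | refl => exact hu
  | tail _ h2 ih =>
    refine ih.step h2.1 ?_ ?_
    · rw [abs_sub_comm]; exact h2.2.1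
    · rw [abs_sub_comm]; exact h2.2.2

lemma abs_dir (q : ZMod 4) : |(dir q).1| ≤ 1 ∧ |(dir q).2| ≤ 1 := by
  rcases dir_cases q with h | h | h | h <;> rw [h] <;> simp

/-- A closed corner of the filled component is at a vertex of the component. -/
lemma mem_of_closed {v : ℤ × ℤ} {q : ZMod 4} (hv : v ∈ filled V) (h : v + dir q ∉ filled V) :
    v ∈ V := by
  by_contra hv'
  rw [not_mem_filled] at h
  refine hv (h.step hv' ?_ ?_)
  · rw [Prod.fst_add, sub_add_cancel_left, abs_neg]; exact (abs_dir q).1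
  · rw [Prod.snd_add, sub_add_cancel_left, abs_neg]; exact (abs_dir q).2

lemma IsVC.closed (hV : IsVC D δ V) {v : ℤ × ℤ} {q : ZMod 4} (hv : v ∈ filled V)
    (h : v + dir q ∉ filled V) : pt δ v ∈ D ∧ pt δ (v + dir q) ∉ D := by
  have h1 := mem_of_closed hv h
  refine ⟨hV.sub v h1, fun h2 => h (subset_filled ?_)⟩
  refine (hV.comp v h1 _).2 (SimpleGraph.Adj.reachable ?_)
  exact ⟨z2_adj_iff.2 ⟨q, rfl⟩, hV.sub v h1, h2⟩

lemma edges_iff {W : Set (ℤ × ℤ)} {v : ℤ × ℤ} (q : ZMod 4) (hv : v ∈ W) :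
    s(v, v + dir q) ∈ edges W ↔ v + dir q ∈ W := by
  constructor
  · intro h; exact h.2 _ (by simp)
  · intro h
    refine ⟨z2_adj_iff.2 ⟨q, rfl⟩, ?_⟩
    intro w hw
    rcases Sym2.mem_iff.1 hw with rfl | rfl
    · exact hv
    · exact h

/-! ### the faces around a vertex which escapes -/

/-- The vertex `w` is a vertex of the face `f`. -/
def tch (f w : ℤ × ℤ) : Prop := f.1 ≤ w.1 ∧ w.1 ≤ f.1 + 1 ∧ f.2 ≤ w.2 ∧ w.2 ≤ f.2 + 1

lemma face_conn {W : Set (ℤ × ℤ)} {w f : ℤ × ℤ} (hw : w ∉ W) (hf : tch f w) :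
    Relation.ReflTransGen (faceStep (edges W)) f w := by
  have hno : ∀ x y : ℤ × ℤ, (x = w ∨ y = w) → s(x, y) ∉ edges W := by
    rintro x y h he
    rcases h with rfl | rfl
    · exact hw (he.2 _ (by simp))
    · exact hw (he.2 _ (by simp))
  obtain ⟨a, b⟩ := f
  obtain ⟨c, d⟩ := w
  obtain ⟨h1, h2, h3, h4⟩ := hf
  simp only at h1 h2 h3 h4
  have s1 : b = d → a + 1 = c → faceStep (edges W) (a, b) (c, d) := by
    rintro rfl rfl
    exact Or.inl ⟨rfl, hno _ _ (Or.inl rfl)⟩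
  have s2 : a = c → b + 1 = d → faceStep (edges W) (a, b) (c, d) := by
    rintro rfl rfl
    exact Or.inr (Or.inr (Or.inl ⟨rfl, hno _ _ (Or.inl rfl)⟩))
  have s3 : a + 1 = c → b + 1 = d → Relation.ReflTransGen (faceStep (edges W)) (a, b) (c, d) := by
    rintro rfl rfl
    refine Relation.ReflTransGen.head (b := (a, b + 1)) ?_
      (Relation.ReflTransGen.single (Or.inl ⟨rfl, hno _ _ (Or.inl rfl)⟩))
    exact Or.inr (Or.inr (Or.inl ⟨rfl, hno _ _ (Or.inr rfl)⟩))
  by_cases e1 : a = c <;> by_cases e2 : b = d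
  · rw [e1, e2]
  · exact Relation.ReflTransGen.single (s2 e1 (by omega))
  · exact Relation.ReflTransGen.single (s1 e2 (by omega))
  · exact s3 (by omega) (by omega)

lemma reach_symm {E : Set (Sym2 (ℤ × ℤ))} {f g : ℤ × ℤ}
    (h : Relation.ReflTransGen (faceStep E) f g) : Relation.ReflTransGen (faceStep E) g f := by
  induction h with
  | refl => exact Relation.ReflTransGen.refl
  | tail _ h2 ih => exact Relation.ReflTransGen.head (faceStep_symm h2) ih

lemma face_chain {w0 w : ℤ × ℤ} (h0 : Escapes V w0)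
    (h : Relation.ReflTransGen (kStep V) w0 w) :
    Relation.ReflTransGen (faceStep (edges (filled V))) w0 w := by
  induction h with
  | refl => exact Relation.ReflTransGen.refl
  | @tail b c h1 h2 ih =>
    have eb : b ∉ filled V := not_mem_filled.2 (h0.reach h1)
    have ec : c ∉ filled V := not_mem_filled.2 ((h0.reach h1).reach (Relation.ReflTransGen.single h2))
    obtain ⟨-, k1, k2⟩ := h2
    rw [abs_le] at k1 k2
    have t1 : tch (min b.1 c.1, min b.2 c.2) b := by
      refine ⟨?_, ?_, ?_, ?_⟩ <;> simp only <;> omega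
    have t2 : tch (min b.1 c.1, min b.2 c.2) c := by
      refine ⟨?_, ?_, ?_, ?_⟩ <;> simp only <;> omega
    exact ih.trans ((reach_symm (face_conn eb t1)).trans (face_conn ec t2))

/-- **No holes.** -/
theorem isOuter_filled {c : Corner} (hc : c.1 + dir c.2 ∉ filled V) :
    IsOuter (edges (filled V)) c := by
  intro n
  have h0 := not_mem_filled.1 hc
  obtain ⟨w, hw, hn⟩ := h0.2 n
  refine ⟨w, (face_conn hc ?_).trans (face_chain h0 hw), hn⟩
  obtain ⟨⟨a, b⟩, q⟩ := c
  have d1 : (2 : ZMod 4) ≠ 0 := by decide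
  have d2 : (2 : ZMod 4) ≠ 1 := by decide
  have d3 : (3 : ZMod 4) ≠ 0 := by decide
  have d4 : (3 : ZMod 4) ≠ 1 := by decide
  have d5 : (3 : ZMod 4) ≠ 2 := by decide
  have d6 : (1 : ZMod 4) ≠ 0 := by decide
  rcases zmod4 q with rfl | rfl | rfl | rfl <;>
    simp [tch, Corner.face, dir_0, dir_1, dir_2, dir_3, d1, d2, d3, d4, d5, d6]

/-! ### far vertices -/

lemma escapes_of_far (hδ : 0 < δ) {R : ℝ} (hV : ∀ v ∈ V, ‖pt δ v‖ < R) {v : ℤ × ℤ}
    (hv : R ≤ ‖pt δ v‖) : Escapes V v := by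
  obtain ⟨σ, hσ, hσv⟩ : ∃ σ : ℤ, |σ| = 1 ∧ ∀ n : ℕ, |v.1 + σ * n| = |v.1| + n := by
    rcases le_total 0 v.1 with h | h
    · refine ⟨1, by simp, fun n => ?_⟩
      rw [abs_of_nonneg h, abs_of_nonneg] <;> omega
    · refine ⟨-1, by simp, fun n => ?_⟩
      rw [abs_of_nonpos h, abs_of_nonpos] <;> omega
  have hnot : ∀ n : ℕ, (v.1 + σ * n, v.2) ∉ V := by
    intro n hn
    refine absurd (hV _ hn) (not_lt.2 (hv.trans ?_))
    rw [← abs_of_nonneg (norm_nonneg (pt δ v)), ← abs_of_nonneg (norm_nonneg (pt δ (v.1 + σ * n, v.2))),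
      ← sq_le_sq, Complex.sq_norm, Complex.sq_norm, Complex.normSq_apply, Complex.normSq_apply]
    have h1 : |v.1| ≤ |v.1 + σ * n| := by rw [hσv]; omega
    have h2 : v.1 ^ 2 ≤ (v.1 + σ * n) ^ 2 := sq_le_sq.2 h1
    have h3 : ((v.1 : ℝ)) ^ 2 ≤ ((v.1 + σ * n : ℤ) : ℝ) ^ 2 := by exact_mod_cast h2
    have h4 := mul_le_mul_of_nonneg_left h3 (sq_nonneg δ)
    simp only [pt]
    nlinarith
  have hreach : ∀ n : ℕ, Relation.ReflTransGen (kStep V) v (v.1 + σ * n, v.2) := by
    intro n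
    induction n with
    | zero => simp; exact Relation.ReflTransGen.refl
    | succ n ih =>
      refine ih.tail ⟨hnot (n + 1), ?_, by simp⟩
      simp only
      rw [show v.1 + σ * (n : ℤ) - (v.1 + σ * ((n + 1 : ℕ) : ℤ)) = -σ by push_cast; ring,
        abs_neg, hσ]
  refine ⟨by simpa using hnot 0, fun n => ?_⟩
  refine ⟨_, hreach n.toNat, ?_⟩
  simp only
  rw [hσv]
  have := Int.self_le_toNat n
  have h1 := abs_nonneg v.1
  have h2 := abs_nonneg v.2
  omega

/-- **The holes are close to `D`.** -/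
theorem filled_near (hD : JTop D) {ε : ℝ} (hε : 0 < ε) :
    ∃ r > 0, ∀ δ, 0 < δ → δ < r → ∀ V : Set (ℤ × ℤ), (∀ v ∈ V, pt δ v ∈ D) →
      ∀ v ∈ filled V, Metric.infDist (pt δ v) D < ε := by
  obtain ⟨R, hR⟩ := hD.bdd.subset_ball 0
  have hR' : closure D ⊆ Metric.closedBall 0 R :=
    closure_minimal (hR.trans Metric.ball_subset_closedBall) Metric.isClosed_closedBall
  rcases D.eq_empty_or_nonempty with he | hne
  · subst he
    refine ⟨1, one_pos, fun δ _ _ V _ v _ => ?_⟩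
    rw [Metric.infDist_empty]; exact hε
  have hR0 : 0 < R := by
    obtain ⟨z, hz⟩ := hne
    have := hR hz
    rw [Metric.mem_ball] at this
    exact dist_nonneg.trans_lt this
  set z1 : ℂ := ((R + 1 : ℝ) : ℂ) with hz1
  have hz1n : ‖z1‖ = R + 1 := by
    rw [hz1, Complex.norm_real, Real.norm_eq_abs, abs_of_pos (by linarith)]
  have hz1U : z1 ∈ (closure D)ᶜ := by
    intro h
    have := hR' h
    rw [Metric.mem_closedBall, dist_zero_right, hz1n] at this
    linarith
  set K : Set ℂ := {z | ε ≤ Metric.infDist z D} ∩ Metric.closedBall 0 R with hK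
  have hKc : IsCompact K := by
    refine (isCompact_closedBall (0 : ℂ) R).inter_left ?_
    exact isClosed_le continuous_const (Metric.continuous_infDist_pt D)
  have hKU : K ⊆ (closure D)ᶜ := by
    intro z hz h
    have h1 := hz.1
    rw [Metric.mem_closure_iff_infDist_zero hne] at h
    rw [mem_setOf_eq, h] at h1
    linarith
  obtain ⟨r1, hr1, H1⟩ := bulk_compact isClosed_closure.isOpen_compl hD.ext hz1U hKc hKU
  refine ⟨min r1 1 / 4, by positivity, fun δ hδ hδr V hV v hv => ?_⟩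
  have e1 := min_le_left r1 1
  have e2 := min_le_right r1 1
  have hVR : ∀ v ∈ V, ‖pt δ v‖ < R := fun v hv => by
    have := hR (hV v hv)
    rwa [Metric.mem_ball, dist_zero_right] at this
  by_contra hcon
  push Not at hcon
  refine hv ?_
  rcases le_or_gt R ‖pt δ v‖ with h | h
  · exact escapes_of_far hδ hVR h
  · obtain ⟨u, hu⟩ := exists_pt hδ z1
    have hue : Escapes V u := by
      refine escapes_of_far hδ hVR ?_
      have h1 := norm_sub_norm_le z1 (pt δ u)
      rw [norm_sub_rev] at h1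
      linarith
    have hreach := H1 δ hδ (by linarith) u v (by linarith)
      ⟨hcon, by rw [Metric.mem_closedBall, dist_zero_right]; exact h.le⟩
    rw [SimpleGraph.reachable_iff_reflTransGen] at hreach
    clear hcon h hv
    induction hreach with
    | refl => exact hue
    | @tail b c _ h2 ih =>
      obtain ⟨q, rfl, hop⟩ := adj_iff.1 h2
      refine ih.step (fun h => hop.mem' (subset_closure (hV _ h))) ?_ ?_
      · rw [Prod.fst_add, add_sub_cancel_left]; exact (abs_dir q).1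
      · rw [Prod.snd_add, add_sub_cancel_left]; exact (abs_dir q).2

end Pool.Agent.H11.Lit
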