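import Pool.Agent.H11.Lit.Var

set_option autoImplicit false
open Set Topology Filter MeasureTheory
open scoped Real ENNReal

/-! # Arcs on which the chord is almost the variation -/

namespace Pool.Agent.H11.Lit

lemma sum_eVariationOn {ρ : ℝ → ℂ} {u : ℕ → ℝ} (hu : Monotone u) (n : ℕ) :
    ∑ i ∈ Finset.range n, eVariationOn ρ (Icc (u i) (u (i + 1))) =
      eVariationOn ρ (Icc (u 0) (u n)) := by
  induction n with
  | zero =>
    rw [eVariationOn.subsingleton]
    · simp
    · simp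
  | succ n ih =>
    rw [Finset.sum_range_succ, ih]
    have h2 := eVariationOn.Icc_add_Icc ρ (s := univ) (a := u 0) (b := u n) (c := u (n + 1))
      (hu (Nat.zero_le n)) (hu (Nat.le_succ n)) (mem_univ _)
    simpa using h2

/-- An arc on which the chord is almost the variation. -/
theorem exists_good_arc {ρ : ℝ → ℂ} {a b : ℝ} (hab : a ≤ b) (hne : ρ a ≠ ρ b)
    (hfin : eVariationOn ρ (Icc a b) ≠ ⊤) {θ : ℝ} (h1 : θ < 1) :
    ∃ s t, a ≤ s ∧ s < t ∧ t ≤ b ∧
      ENNReal.ofReal θ * eVariationOn ρ (Icc s t) < edist (ρ t) (ρ s) := by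
  by_contra hcon
  push Not at hcon
  set V := eVariationOn ρ (Icc a b) with hV
  have hpos : 0 < V := by
    refine lt_of_lt_of_le ?_ (eVariationOn.edist_le ρ (left_mem_Icc.2 hab) (right_mem_Icc.2 hab))
    exact edist_pos.2 hne
  have hlt : ENNReal.ofReal θ * V < V := by
    calc ENNReal.ofReal θ * V < 1 * V := by
          refine (ENNReal.mul_lt_mul_iff_left hpos.ne' hfin).2 ?_
          rw [← ENNReal.ofReal_one]
          exact (ENNReal.ofReal_lt_ofReal_iff one_pos).2 h1
      _ = V := one_mul _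
  obtain ⟨⟨n, u, hu, hus⟩, hsum⟩ := lt_iSup_iff.1 (show ENNReal.ofReal θ * V < ⨆ p : ℕ ×
    { u : ℕ → ℝ // Monotone u ∧ ∀ i, u i ∈ Icc a b }, ∑ i ∈ Finset.range p.1,
      edist (ρ ((p.2 : ℕ → ℝ) (i + 1))) (ρ ((p.2 : ℕ → ℝ) i)) from hlt)
  refine absurd hsum (not_lt.2 ?_)
  calc ∑ i ∈ Finset.range n, edist (ρ (u (i + 1))) (ρ (u i))
      ≤ ∑ i ∈ Finset.range n, ENNReal.ofReal θ * eVariationOn ρ (Icc (u i) (u (i + 1))) := by
        refine Finset.sum_le_sum fun i _ => ?_
        rcases (hu (Nat.le_succ i)).eq_or_lt with h | h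
        · rw [← h]; simp
        · exact hcon _ _ (hus i).1 h (hus (i + 1)).2
    _ = ENNReal.ofReal θ * eVariationOn ρ (Icc (u 0) (u n)) := by
        rw [← Finset.mul_sum, sum_eVariationOn hu]
    _ ≤ ENNReal.ofReal θ * V := by
        gcongr
        exact eVariationOn.mono _ (Icc_subset_Icc (hus 0).1 (hus n).2)

end Pool.Agent.H11.Lit
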